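import Mathlib
import Pool.Agent.W262.TW.Full
import Pool.Agent.W262.TW.Ex3

/-!
# 2-descent shows that almost all quadratic twists have no rational points

Let `f k ∈ ℤ[x]` be irreducible over `ℚ`, of even degrees, pairwise non-associated, and let `F k`
be their homogenisations.  For all squarefree `d`, `|d| ≤ X`, with at most `C X (log X)^(-δ)`
exceptions, no 2-covering `F k (x, w) = δ k * y k ^ 2` of the curve `d y² = ∏ k, F k (x, w)` has
points everywhere locally.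
-/

namespace Pool.Agent.Results.MP_d37f77_nt.AlmostAllTwists

open Finset Polynomial

/-- the homogenisation `F(x, w) = ∑ i, a i * x ^ i * w ^ (n - i)` of `f = ∑ i, a i * x ^ i`,
`n = deg f` -/
noncomputable def hom (f : ℤ[X]) {R : Type*} [CommRing R] (x w : R) : R :=
  ∑ i ∈ range (f.natDegree + 1), (f.coeff i : R) * x ^ i * w ^ (f.natDegree - i)

/-- the curve `C d : d * y ^ 2 = ∏ k, F k (x, w)` has a point over the field `L` -/
def CurveHasPoint {K : Type} [Fintype K] (f : K → ℤ[X]) (d : ℤ) (L : Type) [Field L] : Prop :=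
  ∃ x w y : L, (x ≠ 0 ∨ w ≠ 0) ∧ d * y ^ 2 = ∏ k, hom (f k) x w

/-- the curve `D δ : F k (x, w) = δ k * y k ^ 2` (all `k`) has a point over the field `L` -/
def CoveringHasPoint {K : Type} (f : K → ℤ[X]) (δ : K → ℤ) (L : Type) [Field L] : Prop :=
  ∃ x w : L, (x ≠ 0 ∨ w ≠ 0) ∧ ∀ k, ∃ y : L, hom (f k) x w = δ k * y ^ 2

/-- some covering `D δ` of `C d` (`d * ∏ k, δ k` is a square) has points everywhere locally -/
def SelmerNonempty {K : Type} [Fintype K] (f : K → ℤ[X]) (d : ℤ) : Prop :=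
  ∃ δ : K → ℤ, (∀ k, δ k ≠ 0) ∧ IsSquare (d * ∏ k, δ k) ∧ CoveringHasPoint f δ ℝ ∧
    ∀ (p : ℕ) [Fact p.Prime], CoveringHasPoint f δ ℚ_[p]

/-- `X² - 13`, `(X - 1)² - 17`, `(X - 2)² - 221` -/
noncomputable def ex : Fin 3 → ℤ[X] := ![X ^ 2 - 13, (X - 1) ^ 2 - 17, (X - 2) ^ 2 - 221]

/-- the hypotheses: irreducible over `ℚ`, even degree, pairwise non-associated -/
def Adm {K : Type} (f : K → ℤ[X]) : Prop :=
  (∀ k, Irreducible ((f k).map (Int.castRingHom ℚ))) ∧ (∀ k, Even (f k).natDegree) ∧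
  (∀ k l, k ≠ l → ¬ Associated ((f k).map (Int.castRingHom ℚ)) ((f l).map (Int.castRingHom ℚ)))

theorem result :
    (∀ (K : Type) [Fintype K] [DecidableEq K] (f : K → ℤ[X]), Adm f →
      (∃ δ : ℝ, 0 < δ ∧ ∃ C : ℝ, ∀ X : ℕ, 2 ≤ X →
        ({d : ℤ | d.natAbs ≤ X ∧ Squarefree d ∧ SelmerNonempty f d}.ncard : ℝ) ≤
          C * X * (Real.log X) ^ (-δ)) ∧
      ∀ d : ℤ, CurveHasPoint f d ℚ → SelmerNonempty f d) ∧
    (Adm ex ∧ ∀ d : ℤ, CurveHasPoint ex d ℝ ∧
      ∀ (p : ℕ) [Fact p.Prime], CurveHasPoint ex d ℚ_[p]) := by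
  refine ⟨fun K _ _ f hf => ⟨?_, fun d hd => ?_⟩,
    ⟨W262.TW.ex_irr, fun k => ?_, W262.TW.ex_ass⟩, W262.TW.ex_loc⟩
  · obtain ⟨δ, hδ, C, hC⟩ := W262.TW.fin3_all K f hf.1 hf.2.1 hf.2.2
    refine ⟨δ, hδ, max C (5 / 2 * (Real.log 2) ^ δ), fun X hX => ?_⟩
    have hl2 : 0 < Real.log 2 := Real.log_pos (by norm_num)
    rcases Nat.lt_or_ge 2 X with h | h
    · refine (hC X h).trans ?_
      have h1 : (0 : ℝ) ≤ Real.log X := Real.log_natCast_nonneg X
      have h2 : (0 : ℝ) ≤ (Real.log X) ^ (-δ) := Real.rpow_nonneg h1 _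
      exact mul_le_mul_of_nonneg_right
        (mul_le_mul_of_nonneg_right (le_max_left _ _) (Nat.cast_nonneg _)) h2
    · obtain rfl : X = 2 := le_antisymm h hX
      have h3 : {d : ℤ | d.natAbs ≤ 2 ∧ Squarefree d ∧ SelmerNonempty f d}.ncard ≤ 5 := by
        have h4 : {d : ℤ | d.natAbs ≤ 2 ∧ Squarefree d ∧ SelmerNonempty f d} ⊆
            ((Finset.Icc (-2 : ℤ) 2 : Finset ℤ) : Set ℤ) := by
          intro d hd
          have h5 : d.natAbs ≤ 2 := hd.1
          rw [Finset.mem_coe, Finset.mem_Icc]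
          omega
        refine (Set.ncard_le_ncard h4 (Finset.finite_toSet _)).trans ?_
        rw [Set.ncard_coe_finset]
        rfl
      have h6 : ({d : ℤ | d.natAbs ≤ 2 ∧ Squarefree d ∧ SelmerNonempty f d}.ncard : ℝ) ≤ 5 := by
        exact_mod_cast h3
      refine h6.trans ?_
      have h7 : (0 : ℝ) ≤ ((2 : ℕ) : ℝ) * (Real.log ((2 : ℕ) : ℝ)) ^ (-δ) := by positivity
      have h8 : (5 : ℝ) = (5 / 2 * (Real.log 2) ^ δ) * (((2 : ℕ) : ℝ) *
          (Real.log ((2 : ℕ) : ℝ)) ^ (-δ)) := by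
        have h9 : (Real.log 2) ^ δ * (Real.log 2) ^ (-δ) = 1 := by
          rw [← Real.rpow_add hl2]
          simp
        push_cast
        linear_combination (-5 : ℝ) * h9
      calc (5 : ℝ) = (5 / 2 * (Real.log 2) ^ δ) * (((2 : ℕ) : ℝ) *
            (Real.log ((2 : ℕ) : ℝ)) ^ (-δ)) := h8
        _ ≤ (max C (5 / 2 * (Real.log 2) ^ δ)) * (((2 : ℕ) : ℝ) *
            (Real.log ((2 : ℕ) : ℝ)) ^ (-δ)) := mul_le_mul_of_nonneg_right (le_max_right _ _) h7
        _ = _ := by rw [mul_assoc]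
  · refine W262.TW.sel_of_point f hf.1 (fun k => ?_) hd
    have e1 : ((f k).map (Int.castRingHom ℚ)).natDegree = (f k).natDegree :=
      natDegree_map_eq_of_injective (RingHom.injective_int (Int.castRingHom ℚ)) _
    have e2 : 0 < ((f k).map (Int.castRingHom ℚ)).natDegree := (hf.1 k).natDegree_pos
    obtain ⟨m, hm⟩ := hf.2.1 k
    omega
  · rw [show (ex k).natDegree = 2 from W262.TW.ex_natDegree k]
    exact even_two

end Pool.Agent.Results.MP_d37f77_nt.AlmostAllTwists
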